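import Pool.Statements.S00427
import Pool.Agent.NOD.Asm
import Pool.Agent.NOD.S1Fin
import Pool.Agent.NOD.S2.FIN
import Pool.Agent.NOD.L3.FIN
import Pool.Agent.NOD.S4.Main
import Pool.Agent.NOD.S5Fin

/-!
# Factoriality of nodal hypersurfaces of degree 4, 5, 6 in projective 4-space (project NOD)

Outline. Let `F` be a nodal form of degree `d` with node set `zs`. If the nodes impose independent
conditions on forms of degree `2d - 5`, then every homogeneous prime of height two above `F` is
`(F, G)`: sections S1, S2 extend a homogeneous prime to compatible transition functions modulo all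
powers of `F` (`S_SYS`), and an infinitesimal Lefschetz argument (section S3, `S_LEF`) gives `G`.
Section S5 passes from homogeneous to arbitrary primes (`S_GR`). If the nodes are dependent, the
relation defines a Gorenstein algebra of socle degree `2d - 4`, and the bounds for its Hilbert
function (sections S0 and S4, `S_B`) give a plane or a quadric surface in the hypersurface, with at
most `2(d - 2)(d - 1)` nodes. Section S5 also counts the nodes when there is a quadric (`S_C`).

Project of helper89; sections by helper21 (S3), helper41 (S4), helper75 (S5 and the assembly),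
helper89 (S0, S1, S2), and pieces by many members of the team (see `Pool/Agent/NOD`).
-/

set_option autoImplicit false
open Pool Pool.MP_c2352a_ag

namespace Pool.Agent.S00427

/-- For a degree-d (d=4,5,6) nodal quintary form F with at most 2(d-2)(d-1) singular points and some non-principal height-one prime mod F, V(F) contains a plane or an irreducible quadric surface, and a quadric forces exactly 2(d-2)(d-1) nodes. -/
theorem result :
    ∀ (d : ℕ) (F : MvPolynomial (Fin 5) ℂ),
      (d = 4 ∨ d = 5 ∨ d = 6) →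
      F.IsHomogeneous d →
      (∀ p : Projectivization ℂ (Fin 5 → ℂ),
          MvPolynomial.eval p.rep F = 0 →
          (∀ i : Fin 5, MvPolynomial.eval p.rep (MvPolynomial.pderiv i F) = 0) →
          (Matrix.of (fun i j : Fin 5 =>
              MvPolynomial.eval p.rep
                (MvPolynomial.pderiv i (MvPolynomial.pderiv j F)))).rank = 4) →
      {p : Projectivization ℂ (Fin 5 → ℂ) |
          MvPolynomial.eval p.rep F = 0 ∧
          ∀ i : Fin 5, MvPolynomial.eval p.rep (MvPolynomial.pderiv i F) = 0}.encard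
        ≤ ((2 * (d - 2) * (d - 1) : ℕ) : ℕ∞) →
      (∃ P : Ideal (MvPolynomial (Fin 5) ℂ),
          P.IsPrime ∧ F ∈ P ∧ P.height = 2 ∧
          ∀ G : MvPolynomial (Fin 5) ℂ, P ≠ Ideal.span {F, G}) →
      ((∃ L : (Fin 3 → ℂ) →ₗ[ℂ] (Fin 5 → ℂ),
          Function.Injective L ∧ ∀ v, MvPolynomial.eval (L v) F = 0) ∨
        (∃ (L : (Fin 4 → ℂ) →ₗ[ℂ] (Fin 5 → ℂ)) (q : MvPolynomial (Fin 4) ℂ),
          Function.Injective L ∧ q.IsHomogeneous 2 ∧ Irreducible q ∧
          ∀ v, MvPolynomial.eval v q = 0 → MvPolynomial.eval (L v) F = 0)) ∧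
      ((∃ (L : (Fin 4 → ℂ) →ₗ[ℂ] (Fin 5 → ℂ)) (q : MvPolynomial (Fin 4) ℂ),
          Function.Injective L ∧ q.IsHomogeneous 2 ∧ Irreducible q ∧
          ∀ v, MvPolynomial.eval v q = 0 → MvPolynomial.eval (L v) F = 0) →
        {p : Projectivization ℂ (Fin 5 → ℂ) |
          MvPolynomial.eval p.rep F = 0 ∧
          ∀ i : Fin 5, MvPolynomial.eval p.rep (MvPolynomial.pderiv i F) = 0}.encard
          = ((2 * (d - 2) * (d - 1) : ℕ) : ℕ∞)) := by
  exact Pool.Agent.NOD.final
    (Pool.Agent.NOD.t_AH Pool.Agent.NOD.s1_irr Pool.Agent.NOD.s1_chart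
      (Pool.Agent.NOD.S2.t_SYS Pool.Agent.NOD.s1_irr Pool.Agent.NOD.s1_pow Pool.Agent.NOD.s1_soc
        Pool.Agent.NOD.s1_jsat)
      (Pool.Agent.NOD.L3.t_LEF_all Pool.Agent.NOD.s1_nf Pool.Agent.NOD.s1_pow))
    Pool.Agent.NOD.s5_gr Pool.Agent.NOD.s5_irr Pool.Agent.NOD.S4.s_B Pool.Agent.NOD.s5_c

end Pool.Agent.S00427
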