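import Pool.Statements.S00905
-- import your own Pool.Agent.* helpers here

set_option autoImplicit false
open Pool Pool.MP_207b86_al
open Topology

namespace Pool.Agent.S00905

/-- The evaluation homomorphism at a point. -/
def ev {G : Type} [Group G] (g : G) : Monoid.Coprod G (FreeGroup Unit) →* G :=
  Monoid.Coprod.lift (MonoidHom.id G) (FreeGroup.lift (fun _ => g))

/-- The Zariski topology. -/
def zar (G : Type) [Group G] : TopologicalSpace G :=
  TopologicalSpace.generateFrom
        {U : Set G | ∃ w : Monoid.Coprod G (FreeGroup Unit),
          U = {g : G | Monoid.Coprod.lift (MonoidHom.id G) (FreeGroup.lift (fun _ => g)) w = 1}ᶜ}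

theorem ev_inl {G : Type} [Group G] (g a : G) : ev g (Monoid.Coprod.inl a) = a := by
  simp [ev]

theorem ev_inr {G : Type} [Group G] (g : G) : ev g (Monoid.Coprod.inr (FreeGroup.of ())) = g := by
  simp [ev]

/-- In a Hausdorff group topology every evaluation map is continuous. -/
theorem continuous_ev {G : Type} [Group G] [TopologicalSpace G] [IsTopologicalGroup G]
    (w : Monoid.Coprod G (FreeGroup Unit)) : Continuous (fun g : G => ev g w) := by
  induction w using Monoid.Coprod.induction_on with
  | inl a => simpa [ev_inl] using continuous_const
  | inr x =>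
    induction x using FreeGroup.induction_on with
    | C1 => simpa [ev] using continuous_const
    | of a =>
      have h : (fun g : G => ev g (Monoid.Coprod.inr (FreeGroup.of a))) = id := by
        funext g
        simp [ev]
      rw [h]
      exact continuous_id
    | inv_of a h => simpa [ev] using (continuous_inv : Continuous fun g : G => g⁻¹)
    | mul a b ha hb =>
      simp only [map_mul]
      exact Continuous.mul ha hb
  | mul a b ha hb =>
      simp only [map_mul]
      exact Continuous.mul ha hb

/-- A group topology that is Hausdorff refines the Zariski topology. -/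
theorem le_zar {G : Type} [Group G] [t : TopologicalSpace G] [IsTopologicalGroup G] [T2Space G] :
    t ≤ zar G := by
  apply le_generateFrom
  rintro U ⟨w, rfl⟩
  rw [isOpen_compl_iff]
  exact isClosed_eq (continuous_ev w) continuous_const

theorem isClosed_zar {G : Type} [Group G] (w : Monoid.Coprod G (FreeGroup Unit)) :
    IsClosed[zar G] {g : G | ev g w = 1} := by
  let _ := zar G
  rw [← isOpen_compl_iff]
  exact TopologicalSpace.isOpen_generateFrom_of_mem ⟨w, rfl⟩

abbrev P : Type := Equiv.Perm (Fin 3)

instance : TopologicalSpace P := ⊥
instance : DiscreteTopology P := ⟨rfl⟩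

theorem center_triv : ∀ c d : P, (∀ g : P, g * (c * d⁻¹) = (c * d⁻¹) * g) → c = d := by
  decide

abbrev G : Type := ℕ → P

theorem isClosed_coord (i : ℕ) (c : P) : IsClosed[zar G] {x : G | x i = c} := by
  let _ := zar G
  have h : {x : G | x i = c} = ⋂ g : P, {x : G | ev x
      (Monoid.Coprod.inl (Pi.mulSingle i g) * (Monoid.Coprod.inr (FreeGroup.of ()) *
        (Monoid.Coprod.inl (Pi.mulSingle i c))⁻¹) *
        (Monoid.Coprod.inl (Pi.mulSingle i g))⁻¹ * (Monoid.Coprod.inr (FreeGroup.of ()) *
        (Monoid.Coprod.inl (Pi.mulSingle i c))⁻¹)⁻¹) = 1} := by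
    ext x
    simp only [Set.mem_ofPred_eq, Set.mem_iInter, map_mul, map_inv, ev_inl, ev_inr]
    constructor
    · intro hx g
      ext1 j
      by_cases hj : j = i
      · subst hj
        simp [hx]
      · simp [Pi.mulSingle_eq_of_ne hj]
    · intro hx
      apply center_triv
      intro g
      have := congrFun (hx g) i
      simp only [Pi.mul_apply, Pi.inv_apply, Pi.mulSingle_eq_same, Pi.one_apply] at this
      rw [mul_inv_eq_one, mul_inv_eq_iff_eq_mul] at this
      exact this
  rw [h]
  exact isClosed_iInter fun g => isClosed_zar _

theorem isOpen_coord (i : ℕ) (c : P) : IsOpen[zar G] {x : G | x i = c} := by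
  let _ := zar G
  have h : {x : G | x i = c} = (⋃ d ∈ {d : P | d ≠ c}, {x : G | x i = d})ᶜ := by
    ext x
    simp only [Set.mem_ofPred_eq, ne_eq, Set.mem_compl_iff, Set.mem_iUnion, not_exists]
    constructor
    · rintro hx d hd rfl
      exact hd hx
    · intro hx
      by_contra hc
      exact hx _ hc rfl
  rw [h, isOpen_compl_iff]
  exact (Set.toFinite _).isClosed_biUnion fun d _ => isClosed_coord i d

theorem zar_eq : zar G = Pi.topologicalSpace := by
  apply le_antisymm
  · apply le_iInf
    intro i
    rw [← continuous_iff_le_induced]
    let _ := zar G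
    rw [continuous_discrete_rng]
    intro c
    exact isOpen_coord i c
  · exact le_zar

/-- There is an infinite group whose Zariski topology is both compact and Hausdorff. The closed sets of that topology are generated by solution sets of one-variable equations with constants from the group. -/
theorem result :
    ∃ (G : Type) (_ : Group G) (T : TopologicalSpace G),
      Infinite G ∧
      T = TopologicalSpace.generateFrom
        {U : Set G | ∃ w : Monoid.Coprod G (FreeGroup Unit),
          U = {g : G | Monoid.Coprod.lift (MonoidHom.id G) (FreeGroup.lift (fun _ => g)) w = 1}ᶜ} ∧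
      @CompactSpace G T ∧ @T2Space G T := by
  refine ⟨G, inferInstance, Pi.topologicalSpace, inferInstance, zar_eq.symm, inferInstance,
    inferInstance⟩

end Pool.Agent.S00905
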