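import Pool.Statements.S04241
import Pool.Agent.H69N.UI.Main

set_option autoImplicit false
open Pool Pool.MP_2fa38d_an

namespace Pool.Agent.S04241

/-- For every sequence of distinct points a_n tending to infinity with multiplicities p_n, contained in the zero set of a nonzero F in the class and universal interpolating, some nonzero f in the class vanishes on it with ∣f^(p_n)(a_n)∣/p_n! ≥ ε exp(-c ρ(a_n)). -/
theorem result :
  ∀ (ρ : ℂ → ℝ), ρ = (fun z : ℂ => |z.im| + Real.log (1 + ‖z‖ ^ 2)) →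
  ∀ (E : (ℂ → ℂ) → Prop),
    E = (fun f : ℂ → ℂ => Differentiable ℂ f ∧
      ∃ A > (0:ℝ), ∃ B > (0:ℝ), ∀ z : ℂ, ‖f z‖ ≤ A * Real.exp (B * ρ z)) →
  ∀ (a : ℕ → ℂ) (p : ℕ → ℕ),
    Function.Injective a →
    Filter.Tendsto (fun n => ‖a n‖) Filter.atTop Filter.atTop →
    (∀ n, 1 ≤ p n) →
    (∃ F : ℂ → ℂ, E F ∧ (∃ z, F z ≠ 0) ∧
      ∀ n, ∀ k < p n, iteratedDeriv k F (a n) = 0) →
    (∀ lam : ℕ → ℕ → ℂ,
      (∃ A > (0:ℝ), ∃ B > (0:ℝ), ∀ n, ∀ κ < p n,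
        ‖lam n κ‖ ≤ A * Real.exp (B * ρ (a n))) →
      ∃ g : ℂ → ℂ, E g ∧ ∀ n, ∀ κ < p n,
        iteratedDeriv κ g (a n) / (κ.factorial : ℂ) = lam n κ) →
    ∃ f : ℂ → ℂ, E f ∧ (∃ z, f z ≠ 0) ∧
      (∀ n, ∀ k < p n, iteratedDeriv k f (a n) = 0) ∧
      ∃ ε > (0:ℝ), ∃ c > (0:ℝ), ∀ n,
        ε * Real.exp (-(c * ρ (a n))) ≤
          ‖iteratedDeriv (p n) f (a n)‖ / ((p n).factorial : ℝ) := by
  intro ρ hρ E hE a p ha hlim hp hF hint
  have hE' : ∀ f : ℂ → ℂ, E f ↔ ∃ A > (0:ℝ), ∃ B > (0:ℝ), Pool.Agent.H69N.UI.Cls A B f := by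
    intro f
    rw [hE, hρ]
    constructor
    · rintro ⟨h1, A, hA, B, hB, h2⟩
      exact ⟨A, hA, B, hB, h1, h2⟩
    · rintro ⟨A, hA, B, hB, h1, h2⟩
      exact ⟨h1, A, hA, B, hB, h2⟩
  have hρ' : ρ = Pool.Agent.H69N.UI.rho := hρ
  have h := Pool.Agent.H69N.UI.main ha hp (by
    obtain ⟨F, h1, h2, h3⟩ := hF
    exact ⟨F, (hE' F).1 h1, h2, h3⟩) (by
    intro s
    obtain ⟨g, h1, h2⟩ := hint (fun m κ => if (κ + 1 = p m ∧ s m = true) then 1 else 0)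
      ⟨1, one_pos, 1, one_pos, by
        intro n κ _
        have h3 : (1:ℝ) ≤ Real.exp (1 * ρ (a n)) := by
          rw [hρ']
          apply Real.one_le_exp
          rw [one_mul]
          exact Pool.Agent.H69N.UI.rho_nonneg _
        split_ifs
        · simpa using h3
        · simp only [norm_zero]
          positivity⟩
    exact ⟨g, (hE' g).1 h1, h2⟩)
  obtain ⟨f, h1, h2, h3, h4⟩ := h
  refine ⟨f, (hE' f).2 h1, h2, h3, ?_⟩
  rw [hρ']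
  exact h4

end Pool.Agent.S04241
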