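import Pool.Statements.S05156
-- import your own Pool.Agent.* helpers here

set_option autoImplicit false
open Pool Pool.MP_7d5b5f_an

namespace Pool.Agent.S05156

/-- The negation of the preceding statement: For each p>1 there is C, independent of dimension d and coordinate k, so the discrete Riesz transform with kernel Γ((d+1)/2)π^{-(d+1)/2} x_k/∣x∣^{d+1} on ℤ^d is bounded on ℓ^p with norm at most C (tested on finitely supported f). -/
theorem result :
    ¬ (∀ p : ℝ, 1 < p → ∃ C : ℝ, 0 < C ∧
      ∀ (d : ℕ) (k : Fin d) (S T : Finset (Fin d → ℤ)) (f : (Fin d → ℤ) → ℝ),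
        ∑ n ∈ T, |∑ m ∈ S,
            ((Real.Gamma (((d : ℝ) + 1) / 2) / Real.pi ^ (((d : ℝ) + 1) / 2)) *
              (((n k - m k : ℤ) : ℝ) /
                (Real.sqrt (∑ i, (((n i - m i : ℤ) : ℝ)) ^ 2)) ^ (d + 1))) * f m| ^ p
          ≤ C ^ p * ∑ m ∈ S, |f m| ^ p) := by
  intro H
  obtain ⟨C, hC0, hC⟩ := H 2 (by norm_num)
  -- the value of the kernel at a unit vector is at most `C`
  have key : ∀ N : ℕ, (N.factorial : ℝ) / Real.pi ^ (N + 1) ≤ C := by
    intro N
    have hk : 0 < 2 * N + 1 := by omega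
    let k : Fin (2 * N + 1) := ⟨0, hk⟩
    have h := hC (2 * N + 1) k {0} {Pi.single k 1} (fun _ => 1)
    simp only [Finset.sum_singleton, Pi.zero_apply, sub_zero, mul_one, abs_one, Real.one_rpow,
      Pi.single_eq_same] at h
    have hs : ∑ i, (((Pi.single k 1 : Fin (2 * N + 1) → ℤ) i : ℤ) : ℝ) ^ 2 = 1 := by
      rw [Finset.sum_eq_single k]
      · simp
      · intro b _ hb
        simp [Pi.single_eq_of_ne hb]
      · intro hk'
        exact absurd (Finset.mem_univ k) hk'
    rw [hs] at h
    simp only [Real.sqrt_one, one_pow, Int.cast_one, div_one, mul_one] at h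
    have hg : ((((2 * N + 1 : ℕ) : ℝ) + 1) / 2) = (N : ℝ) + 1 := by
      push_cast
      ring
    rw [hg, Real.Gamma_nat_eq_factorial] at h
    have hp : Real.pi ^ ((N : ℝ) + 1) = Real.pi ^ (N + 1) := by
      rw [show ((N : ℝ) + 1) = ((N + 1 : ℕ) : ℝ) by push_cast; ring, Real.rpow_natCast]
    rw [hp] at h
    have hx : 0 ≤ (N.factorial : ℝ) / Real.pi ^ (N + 1) := by positivity
    rw [abs_of_nonneg hx] at h
    have h2 : ((N.factorial : ℝ) / Real.pi ^ (N + 1)) ^ 2 ≤ C ^ 2 := by
      have e1 : ((N.factorial : ℝ) / Real.pi ^ (N + 1)) ^ (2 : ℝ) =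
          ((N.factorial : ℝ) / Real.pi ^ (N + 1)) ^ 2 := by
        rw [← Real.rpow_natCast]
        norm_num
      have e2 : C ^ (2 : ℝ) = C ^ 2 := by
        rw [← Real.rpow_natCast]
        norm_num
      rw [e1, e2] at h
      exact h
    exact (pow_le_pow_iff_left₀ hx hC0.le two_ne_zero).1 h2
  -- but these values are not bounded
  have hlim := FloorSemiring.tendsto_pow_div_factorial_atTop (K := ℝ) Real.pi
  have hpos : (0 : ℝ) < 1 / (Real.pi * (C + 1)) := by
    have := Real.pi_pos
    positivity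
  obtain ⟨N, hN⟩ := ((hlim.eventually (gt_mem_nhds hpos))).exists
  have h1 := key N
  have hf : (0 : ℝ) < N.factorial := by exact_mod_cast N.factorial_pos
  have hpi := Real.pi_pos
  have hpp : (0 : ℝ) < Real.pi ^ N := by positivity
  rw [div_lt_div_iff₀ hf (by positivity)] at hN
  rw [div_le_iff₀ (by positivity), pow_succ] at h1
  nlinarith [mul_pos hpp hpi]

end Pool.Agent.S05156
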