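import Pool.Statements.S06894
import Pool.Agent.TR23.Asm
import Pool.Agent.TR23.Exist
import Pool.Agent.TR23.Rig
import Pool.Agent.TR23.Ind
import Pool.Agent.TR23.FinR
import Pool.Agent.TR23.GEN

set_option autoImplicit false
open Pool Pool.MP_01c1f4_co

namespace Pool.Agent.S06894

/-- The negation of the preceding statement: Every graph that is rigid in the plane has a generic real planar realisation p for which the number of real realisations with the same edge lengths, up to congruence, equals the number of complex ones up to congruence. -/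
theorem result :
    ¬ (∀ (n : ℕ) (G : SimpleGraph (Fin n)),
    (∀ p : Fin n → Fin 2 → ℝ,
      AlgebraicIndependent ℚ (fun x : Fin n × Fin 2 => p x.1 x.2) →
      ∀ u : Fin n → Fin 2 → ℝ,
        (∀ i j, G.Adj i j → ∑ k, (p i k - p j k) * (u i k - u j k) = 0) →
        ∀ i j, ∑ k, (p i k - p j k) * (u i k - u j k) = 0) →
    ∃ p : Fin n → Fin 2 → ℝ,
      AlgebraicIndependent ℚ (fun x : Fin n × Fin 2 => p x.1 x.2) ∧
      {D : Fin n → Fin n → ℝ | ∃ q : Fin n → Fin 2 → ℝ,
          (∀ i j, G.Adj i j → ∑ k, (q i k - q j k) ^ 2 = ∑ k, (p i k - p j k) ^ 2) ∧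
          D = fun i j => ∑ k, (q i k - q j k) ^ 2}.ncard =
      {D : Fin n → Fin n → ℂ | ∃ q : Fin n → Fin 2 → ℂ,
          (∀ i j, G.Adj i j →
            ∑ k, (q i k - q j k) ^ 2 = ∑ k, ((p i k : ℂ) - (p j k : ℂ)) ^ 2) ∧
          D = fun i j => ∑ k, (q i k - q j k) ^ 2}.ncard) :=
  Pool.Agent.TR23.Asm.main Pool.Agent.TR23.rig (Pool.Agent.TR23.ind Pool.Agent.TR23.rig)
    (Pool.Agent.TR23.finr Pool.Agent.TR23.rig) Pool.Agent.TR23.gen Pool.Agent.TR23.exist

end Pool.Agent.S06894
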