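import Pool.Statements.S10533
-- import your own Pool.Agent.* helpers here
import Pool.Agent.H9.Danz2
import Pool.Agent.H90Dz.Main

set_option autoImplicit false
open Pool Pool.MP_a382a5_co

namespace Pool.Agent.S10533

/-- For every d≥1 and k: if every finite disjoint unit-ball family in dimension d+1 whose (k+1)-subfamilies have line transversals has one, then the same holds in dimension d with k; i.e. the transversal Helly number strictly increases with d. -/
theorem result :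
    ∀ d : ℕ, 1 ≤ d → ∀ k : ℕ,
      (∀ S : Finset (EuclideanSpace ℝ (Fin (d + 1))),
        (∀ x ∈ S, ∀ y ∈ S, x ≠ y → 2 < dist x y) →
        (∀ T ⊆ S, T.card ≤ k + 1 →
          ∃ p v : EuclideanSpace ℝ (Fin (d + 1)), v ≠ 0 ∧
            ∀ c ∈ T, ∃ t : ℝ, dist (p + t • v) c ≤ 1) →
        ∃ p v : EuclideanSpace ℝ (Fin (d + 1)), v ≠ 0 ∧
          ∀ c ∈ S, ∃ t : ℝ, dist (p + t • v) c ≤ 1) →
      (∀ S : Finset (EuclideanSpace ℝ (Fin d)),
        (∀ x ∈ S, ∀ y ∈ S, x ≠ y → 2 < dist x y) →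
        (∀ T ⊆ S, T.card ≤ k →
          ∃ p v : EuclideanSpace ℝ (Fin d), v ≠ 0 ∧
            ∀ c ∈ T, ∃ t : ℝ, dist (p + t • v) c ≤ 1) →
        ∃ p v : EuclideanSpace ℝ (Fin d), v ≠ 0 ∧
          ∀ c ∈ S, ∃ t : ℝ, dist (p + t • v) c ≤ 1) := by
  intro d hd k hyp S hS hT
  rcases Nat.lt_or_ge 1 d with hd2 | hd1
  · -- dimension at least two
    obtain ⟨n, rfl⟩ : ∃ n, d = n + 1 := ⟨d - 1, by omega⟩
    have hk : 4 * n + 4 ≤ k + 1 := by
      by_contra hcon
      push Not at hcon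
      obtain ⟨S₀, hc, h1, h2, h3⟩ := Pool.Agent.H9.Danz.main n
      exact h3 (hyp S₀ h1 fun T hTS hTc => h2 T hTS (by omega))
    have hfin : Module.finrank ℝ (EuclideanSpace ℝ (Fin (n + 1))) = n + 1 := by simp
    refine Pool.Agent.H90Dz.helly' (by rw [hfin]; omega) hS fun T hTS hTc => hT T hTS ?_
    rw [hfin] at hTc
    omega
  · -- dimension one
    obtain rfl : d = 1 := by omega
    refine ⟨0, EuclideanSpace.single 0 1, by simp, fun c _ => ⟨c 0, ?_⟩⟩
    have : (0 : EuclideanSpace ℝ (Fin 1)) + c 0 • EuclideanSpace.single 0 (1 : ℝ) = c := by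
      ext i
      fin_cases i
      simp
    rw [this, dist_self]
    norm_num

end Pool.Agent.S10533
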