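import Pool.Statements.S13092
-- import your own Pool.Agent.* helpers here
import Pool.Agent.H62A.Asm

set_option autoImplicit false
open LaurentPolynomial
open scoped Matrix
open Pool Pool.MP_436001_gt

namespace Pool.Agent.S13092

/-- The negation of the preceding statement: Suppose a nondegenerate Hermitian Laurent-polynomial form L has boundary linking form isometric to that of H2^g, L at t=1 equals Q plus 2g zeros, and L plus n H2's ≅ Q plus (g+n) H2's. Then L ≅ Q ⊕ H2^g. -/
theorem result :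
    ¬ (∀ (σ : LaurentPolynomial ℤ →+* LaurentPolynomial ℤ) (ε : LaurentPolynomial ℤ →+* ℤ),
      σ (T 1) = T (-1) → ε (T 1) = 1 →
      ∀ (H2 : Matrix (Fin 2) (Fin 2) (LaurentPolynomial ℤ)),
        H2 = !![0, T 1 - 1; T (-1) - 1, 0] →
      ∀ (k : ℕ) (Q : Matrix (Fin k) (Fin k) ℤ), Qᵀ = Q → IsUnit Q.det →
      ∀ (g r : ℕ) (L : Matrix (Fin r) (Fin r) (LaurentPolynomial ℤ)),
        (L.map σ)ᵀ = L → L.det ≠ 0 →
        (∃ (P Q1 : Matrix (Fin 2 × Fin g) (Fin r) (LaurentPolynomial ℤ))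
            (P' Q2 : Matrix (Fin r) (Fin 2 × Fin g) (LaurentPolynomial ℤ))
            (S1 M : Matrix (Fin r) (Fin r) (LaurentPolynomial ℤ))
            (S2 : Matrix (Fin 2 × Fin g) (Fin 2 × Fin g) (LaurentPolynomial ℤ)),
            P * L = Matrix.blockDiagonal (fun _ : Fin g => H2) * Q1 ∧
            P' * Matrix.blockDiagonal (fun _ : Fin g => H2) = L * Q2 ∧
            P' * P = 1 + L * S1 ∧
            P * P' = 1 + Matrix.blockDiagonal (fun _ : Fin g => H2) * S2 ∧
            (L.map (algebraMap (LaurentPolynomial ℤ) (FractionRing (LaurentPolynomial ℤ))))⁻¹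
              - ((P.map σ)ᵀ).map (algebraMap (LaurentPolynomial ℤ) (FractionRing (LaurentPolynomial ℤ)))
                * ((Matrix.blockDiagonal (fun _ : Fin g => H2)).map
                    (algebraMap (LaurentPolynomial ℤ) (FractionRing (LaurentPolynomial ℤ))))⁻¹
                * P.map (algebraMap (LaurentPolynomial ℤ) (FractionRing (LaurentPolynomial ℤ)))
              = M.map (algebraMap (LaurentPolynomial ℤ) (FractionRing (LaurentPolynomial ℤ)))) →
        (∃ (P : Matrix (Fin r) (Fin k ⊕ Fin 2 × Fin g) ℤ)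
            (P' : Matrix (Fin k ⊕ Fin 2 × Fin g) (Fin r) ℤ),
            P * P' = 1 ∧ P' * P = 1 ∧
            Pᵀ * L.map ε * P = Matrix.fromBlocks Q 0 0 0) →
        (∃ (n : ℕ) (P : Matrix (Fin r ⊕ Fin 2 × Fin n) (Fin k ⊕ Fin 2 × Fin (g + n)) (LaurentPolynomial ℤ))
            (P' : Matrix (Fin k ⊕ Fin 2 × Fin (g + n)) (Fin r ⊕ Fin 2 × Fin n) (LaurentPolynomial ℤ)),
            P * P' = 1 ∧ P' * P = 1 ∧
            (P.map σ)ᵀ * Matrix.fromBlocks L 0 0 (Matrix.blockDiagonal (fun _ : Fin n => H2)) * P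
              = Matrix.fromBlocks (Q.map (Int.castRingHom (LaurentPolynomial ℤ))) 0 0
                  (Matrix.blockDiagonal (fun _ : Fin (g + n) => H2))) →
        ∃ (P : Matrix (Fin r) (Fin k ⊕ Fin 2 × Fin g) (LaurentPolynomial ℤ))
          (P' : Matrix (Fin k ⊕ Fin 2 × Fin g) (Fin r) (LaurentPolynomial ℤ)),
          P * P' = 1 ∧ P' * P = 1 ∧
          (P.map σ)ᵀ * L * P
            = Matrix.fromBlocks (Q.map (Int.castRingHom (LaurentPolynomial ℤ))) 0 0
                (Matrix.blockDiagonal (fun _ : Fin g => H2))) := by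
  intro hall
  have hab : (T 1 : LaurentPolynomial ℤ) * T (-1) = 1 := by
    rw [← T_add]
    simp
  have hba : (T (-1) : LaurentPolynomial ℤ) * T 1 = 1 := by
    rw [mul_comm, hab]
  have hσ1 : (invert : LaurentPolynomial ℤ ≃ₐ[ℤ] LaurentPolynomial ℤ).toRingEquiv.toRingHom (T 1)
      = T (-1) := invert_T 1
  have hσ2 : (invert : LaurentPolynomial ℤ ≃ₐ[ℤ] LaurentPolynomial ℤ).toRingEquiv.toRingHom (T (-1))
      = T 1 := by
    have := invert_T (R := ℤ) (-1)
    rw [neg_neg] at this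
    exact this
  have hε1 : (eval₂ (RingHom.id ℤ) (1 : ℤˣ)) (T 1 : LaurentPolynomial ℤ) = 1 := by
    rw [eval₂_T]
    simp
  have hε2 : (eval₂ (RingHom.id ℤ) (1 : ℤˣ)) (T (-1) : LaurentPolynomial ℤ) = 1 := by
    rw [eval₂_T]
    simp
  have hinv := H62A.Lm_mul_Minv (T 1 : LaurentPolynomial ℤ) (T (-1))
  have hdet : (H62A.Lm (T 1 : LaurentPolynomial ℤ) (T (-1))).det ≠ 0 := by
    intro h0
    have := congrArg Matrix.det hinv
    rw [Matrix.det_mul, h0, zero_mul, Matrix.det_one] at this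
    exact zero_ne_one this
  obtain ⟨P, P', -, -, hP⟩ := hall
    (invert : LaurentPolynomial ℤ ≃ₐ[ℤ] LaurentPolynomial ℤ).toRingEquiv.toRingHom
    (eval₂ (RingHom.id ℤ) (1 : ℤˣ)) hσ1 hε1 _ rfl 4 1 (by simp) (by simp) 0 4
    (H62A.Lm (T 1) (T (-1)))
    (by
      rw [H62A.Lm_map, hσ1, hσ2]
      ext1 i j
      fin_cases i <;> fin_cases j <;> simp [H62A.Lm, add_comm])
    hdet
    ⟨0, 0, 0, 0, -(H62A.Minv (T 1) (T (-1))), H62A.Minv (T 1) (T (-1)), 0, by
        ext1 i j
        exact i.2.elim0, by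
        ext1 i j
        exact j.2.elim0, by
        rw [mul_neg, hinv]
        simp, by
        ext1 i j
        exact i.2.elim0, by
        rw [show (0 : Matrix (Fin 2 × Fin 0) (Fin 4) (LaurentPolynomial ℤ)).map
          (algebraMap (LaurentPolynomial ℤ) (FractionRing (LaurentPolynomial ℤ))) = 0 from
            Matrix.map_zero _ (map_zero _), Matrix.mul_zero, sub_zero]
        apply Matrix.inv_eq_right_inv
        rw [← Matrix.map_mul, hinv, Matrix.map_one _ (map_zero _) (map_one _)]⟩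
    ⟨(!![1, 1, 0, 0; 0, 0, 1, 1; -1, -2, -1, -1; -1, -1, -1, -2] :
        Matrix (Fin 4) (Fin 4) ℤ).submatrix id (Equiv.sumEmpty (Fin 4) (Fin 2 × Fin 0)),
      (!![2, 1, 1, 0; -1, -1, -1, 0; 1, 2, 0, 1; -1, -1, 0, -1] :
        Matrix (Fin 4) (Fin 4) ℤ).submatrix (Equiv.sumEmpty (Fin 4) (Fin 2 × Fin 0)) id,
      by
        rw [Matrix.submatrix_mul_equiv]
        decide, by
        ext1 i j
        rcases i with i | i
        · rcases j with j | j
          · fin_cases i <;> fin_cases j <;> decide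
          · exact j.2.elim0
        · exact i.2.elim0, by
        rw [H62A.Lm_map, hε1, hε2]
        ext1 i j
        rcases i with i | i
        · rcases j with j | j
          · fin_cases i <;> fin_cases j <;> decide
          · exact j.2.elim0
        · exact i.2.elim0⟩
    ⟨2, (H62A.P8 (T 1) (T (-1))).submatrix H62A.e H62A.e,
      (H62A.Q8 (T 1) (T (-1))).submatrix H62A.e H62A.e,
      H62A.PQ_eq _ _ hab, mul_eq_one_comm.1 (H62A.PQ_eq _ _ hab), by
        rw [← Matrix.submatrix_map, H62A.P8_map, hσ1, hσ2, H62A.GL_eq, H62A.iso_eq _ _ hab,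
          ← H62A.G_eq]
        simp⟩
  have h00 := congrFun (congrFun hP (Sum.inl 0)) (Sum.inl 0)
  rw [Matrix.mul_assoc] at h00
  apply H62A.no_unit_vector (fun i => P i (Sum.inl 0))
  rw [Matrix.mul_apply] at h00
  simp only [Matrix.mul_apply, Finset.mul_sum] at h00
  refine Eq.trans ?_ (h00.trans ?_)
  · refine Finset.sum_congr rfl (fun i _ => Finset.sum_congr rfl (fun j _ => ?_))
    rw [mul_assoc]
    rfl
  · simp

end Pool.Agent.S13092
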