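import Pool.Statements.S14780
import Pool.Agent.K7x.BrzB

set_option autoImplicit false
open Pool Pool.MP_604f1e_lc

namespace Pool.Agent.S14780

/-- The negation of the preceding statement: For every finite alphabet, all positive n and m, and every word w, the set of words congruent to w under the monoid congruence generated by x^n ~ x^(n+m) is accepted by some finite automaton. -/
theorem result :
    ¬ (∀ (A : Type) [Fintype A] (n m : ℕ), 0 < n → 0 < m →
      ∀ w : FreeMonoid A,
        ∃ (σ : Type) (_ : Fintype σ) (M : DFA A σ),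
          M.accepts =
            {v : List A |
              conGen (fun a b : FreeMonoid A => ∃ x : FreeMonoid A, a = x ^ n ∧ b = x ^ (n + m))
                (FreeMonoid.ofList v) w}) := by
  intro H
  obtain ⟨p0, hp0⟩ := Pool.Agent.TH54.BU.burnside
  obtain ⟨p, hpp, hp⟩ := Nat.exists_infinite_primes p0
  have hinf := Pool.Agent.TH54.BU.Burn.infinite hp (hp0 p hp hpp)
  obtain ⟨k, rfl⟩ : ∃ k, p = k + 1 := ⟨p - 1, (Nat.sub_add_cancel hp.one_le).symm⟩
  obtain ⟨σ, hσ, M, hM⟩ := H (Fin 2) 1 (k + 1) Nat.one_pos (Nat.succ_pos k)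
    (Pool.Agent.K7x.Brz.xy ^ (k + 1))
  exact Pool.Agent.K7x.Brz.not_regular k hinf σ M hM

end Pool.Agent.S14780
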