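import Pool.Statements.S17026
-- import your own Pool.Agent.* helpers here

set_option autoImplicit false
open Pool Pool.MP_57a8b6_nt

namespace Pool.Agent.S17026

/-- The negation of the preceding statement: For positive integers a,b,c with ab+1=r², ac+1=s², bc+1=t² (r,s,t≥0), every integer solution of y²=(ax+1)(bx+1)(cx+1) has x=0, x=a+b+c+2abc±2rst, or x=-1 with one of a,b,c equal to 1. -/
theorem result :
    ¬ (∀ a b c r s t : ℤ, 0 < a → 0 < b → 0 < c →
      0 ≤ r → 0 ≤ s → 0 ≤ t →
      r ^ 2 = a * b + 1 → s ^ 2 = a * c + 1 → t ^ 2 = b * c + 1 →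
      ∀ x y : ℤ, y ^ 2 = (a * x + 1) * (b * x + 1) * (c * x + 1) →
        x = 0 ∨
        x = a + b + c + 2 * a * b * c + 2 * r * s * t ∨
        x = a + b + c + 2 * a * b * c - 2 * r * s * t ∨
        (x = -1 ∧ (a = 1 ∨ b = 1 ∨ c = 1))) := by
  intro h
  have key := h 5 115 19726599787079129775103071759543738099950374011720
    24 9931414749943516928215699 47629391928872028421837349
    (by norm_num) (by norm_num) (by norm_num) (by norm_num) (by norm_num) (by norm_num)
    (by norm_num) (by norm_num) (by norm_num)
    34307130064485443087135776973119544521652824368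
    676763024625374553353727805340922262877605894543645958977994892519160014502019539531684733592961
    (by norm_num)
  norm_num at key

end Pool.Agent.S17026
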