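import Pool.Statements.S19381
import Pool.Agent.Z55B.A3
import Pool.Agent.Z55B.B
import Pool.Agent.Z55B.C
import Pool.Agent.Z55B.D
import Pool.Agent.Z55B.F
import Pool.Agent.Z55B.G1
import Pool.Agent.Z55B.G2
import Pool.Agent.Z55B.G3
import Pool.Agent.Z55B.G4
import Pool.Agent.Z55B.G5
import Pool.Agent.Z55B.H

set_option autoImplicit false
open MeasureTheory ProbabilityTheory NNReal ENNReal
open Pool Pool.MP_677d31_pr

namespace Pool.Agent.S19381

/-- For compact E in the plane with at least two points and Hausdorff dimension below 1, and z outside E, planar Brownian motion from z almost surely has a loop, closed before hitting E, that puts two points of E in different complementary components. -/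
theorem result :
    ∀ (E : Set (ℝ × ℝ)), IsCompact E → E.Nontrivial → dimH E < 1 →
    ∀ z : ℝ × ℝ, z ∉ E →
    ∀ (Ω : Type) [MeasurableSpace Ω] (P : Measure Ω) [IsProbabilityMeasure P]
      (B : ℝ≥0 → Ω → ℝ × ℝ),
      (∀ u, Measurable (B u)) →
      (∀ ω, Continuous (fun u => B u ω)) →
      (∀ ω, B 0 ω = z) →
      (∀ s t : ℝ≥0, s ≤ t →
        Measure.map (fun ω => B t ω - B s ω) P
            = (gaussianReal 0 (t - s)).prod (gaussianReal 0 (t - s)) ∧
        Indep (MeasurableSpace.comap (fun ω => B t ω - B s ω) inferInstance)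
          (⨆ (u : ℝ≥0) (_ : u ≤ s), MeasurableSpace.comap (B u) inferInstance) P) →
      ∀ᵐ ω ∂P, ∃ s t : ℝ≥0, s < t ∧ B s ω = B t ω ∧
        (∀ u : ℝ≥0, u ≤ t → B u ω ∉ E) ∧
        ∃ x ∈ E, ∃ y ∈ E,
          connectedComponentIn ((fun u => B u ω) '' Set.Icc s t)ᶜ x ≠
          connectedComponentIn ((fun u => B u ω) '' Set.Icc s t)ᶜ y := by
  exact Z55B.pG5 Z55B.pA5 (Z55B.pZ (Z55B.pB Z55B.pA1 Z55B.pA2 Z55B.pA4)
    (Z55B.CW.pC Z55B.pA1 Z55B.pA3) Z55B.pD Z55B.pH Z55B.PF.pF Z55B.pG1 Z55B.PG2.pG2 Z55B.pG3)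

end Pool.Agent.S19381
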